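import Pool.Agent.Lib.MP_28303a_al.TT.Rows

/-! # Two trees: interface, second part -/

set_option autoImplicit false
set_option linter.unusedSectionVars false
set_option linter.unusedVariables false

namespace Pool.Agent.NegK.TT

universe u v w

open Matrix MonoidAlgebra
open Pool.Agent.NegK.TW

/-- The group rings of `G` over regular rings are regular. -/
def InN (G : Type u) [Group G] : Prop :=
  ∀ (R : Type u) [Ring R], RegularRing R → RegularRing (MonoidAlgebra R G)

/-- WALD (400 lines, section 5). Groups acting on a tree with regular coherent stabilizers of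
vertices, and stabilizers of edges with regular group rings. -/
def WaldStatement : Prop :=
  ∀ (Γ V : Type u) [Group Γ] [MulAction Γ V] (G : SimpleGraph V), TreeAct Γ G →
    (∀ v : V, InRC (MulAction.stabilizer Γ v)) →
    (∀ v w, G.Adj v w →
      InN (MulAction.stabilizer Γ v ⊓ MulAction.stabilizer Γ w : Subgroup Γ)) → InRC Γ

/-- NOE. Extensions by `ℤ`: `t ∈ G`, `N` normal, `G` is generated by `N` and `t`, no positive power
of `t` is in `N`. -/
def NoeStatement : Prop :=
  ∀ (k G : Type u) [Ring k] [Group G] (N : Subgroup G) (t : G), N.Normal →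
    (∀ g : G, ∃ (n : ℤ) (x : G), x ∈ N ∧ g = x * t ^ n) → (∀ n : ℤ, t ^ n ∈ N → n = 0) →
    IsNoetherianRing (MonoidAlgebra k N) → IsNoetherianRing (MonoidAlgebra k G)

end Pool.Agent.NegK.TT
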