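import Pool.Agent.Lib.MP_28303a_al.TT.Main2
import Pool.Agent.Lib.MP_28303a_al.TT.H66.Wald

/-! # Several trees: the final form -/

set_option autoImplicit false
set_option linter.unusedSectionVars false
set_option linter.unusedVariables false

namespace Pool.Agent.NegK.TT

universe u v w

open Matrix MonoidAlgebra
open Pool.Agent.NegK.TW

theorem regularRing_equiv (A B : Type u) [Ring A] [Ring B] (e : A ≃+* B) (h : RegularRing A) :
    RegularRing B := H91.regularRing_transfer e h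

theorem inN_prod {G : Type u} [Group G] (h : InN G) : InN (G × Multiplicative ℤ) := by
  intro R _ hR
  exact regularRing_equiv _ _ (H6.cur R G (Multiplicative ℤ)).symm (h _ (H6.regular_int R hR))

theorem inN_triv : InN PUnit.{u + 1} := fun R _ hR =>
  regularRing_equiv _ _ (H67.eqv R).symm hR

theorem inRC_of_inN {G : Type u} [Group G] (h : InN G) : InRC G := fun R _ hR =>
  H67.regCoh_of_regular (h R hR)

/-- Vertex stabilizers in the first two trees. -/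
theorem three' (hWALD : WaldStatement.{u}) {Γ V₁ V₂ V₃ : Type u} [Group Γ] [MulAction Γ V₁]
    [MulAction Γ V₂] [MulAction Γ V₃] {G₁ : SimpleGraph V₁} {G₂ : SimpleGraph V₂}
    {G₃ : SimpleGraph V₃} (h1 : TreeAct Γ G₁) (h2 : TreeAct Γ G₂) (h3 : TreeAct Γ G₃)
    (hV : ∀ (v : V₁) (x : V₂) (y : V₃), InRC (MulAction.stabilizer Γ v ⊓
      MulAction.stabilizer Γ x ⊓ MulAction.stabilizer Γ y : Subgroup Γ))
    (hE : ∀ (v : V₁) (x : V₂) (y z : V₃), G₃.Adj y z → InN (MulAction.stabilizer Γ v ⊓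
      MulAction.stabilizer Γ x ⊓ (MulAction.stabilizer Γ y ⊓ MulAction.stabilizer Γ z) :
        Subgroup Γ)) : H19.InL Γ := by
  have hp2 : ∀ v : V₁, P2 (Γ := Γ) V₂ (MulAction.stabilizer Γ v) := by
    intro v x
    refine hWALD _ V₃ G₃ (treeAct_sub h3 _) (fun y => inRC_stab_sub (hV v x y))
      fun y z hyz => ?_
    rw [stab_sub, stab_sub, ← sub_inf]
    exact inN_equiv (subEquiv _ _).symm (hE v x y z hyz) regularRing_equiv
  have hp2' : ∀ v w, G₁.Adj v w →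
      P2 (Γ := Γ) V₂ (MulAction.stabilizer Γ v ⊓ MulAction.stabilizer Γ w) :=
    fun v w _ => p2_le H91.sub inf_le_left (hp2 v)
  exact (two_trees h1 h2 (fun v w hvw => inL_of_p2 H91.sub h2 (hp2' v w hvw))
    (Or.inr (longP_of_edges (fun H K h => p2_le H91.sub h) hp2'))).2
    fun v => inL_of_p2 H91.sub h2 (hp2 v)

/-- The final form. -/
theorem main :
    (∀ (Γ V V' : Type u) [Group Γ] [MulAction Γ V] [MulAction Γ V'] (T : SimpleGraph V)
      (T' : SimpleGraph V'), TreeAct Γ T → TreeAct Γ T' →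
      (∀ v w, T.Adj v w →
        H19.InL (MulAction.stabilizer Γ v ⊓ MulAction.stabilizer Γ w : Subgroup Γ)) →
      (CondP Γ (P2 (Γ := Γ) V') T ∨ LongP Γ (P2 (Γ := Γ) V') T) →
      (∀ (R : Type u) [Ring R], RegularRing R → ∀ n : ℕ, ⨆ v : V,
        ((KNegFun n).hom (MonoidAlgebra.mapDomainRingHom R
          (MulAction.stabilizer Γ v).subtype)).range = ⊤) ∧
      ((∀ v : V, H19.InL (MulAction.stabilizer Γ v)) → H19.InL Γ)) ∧
    (∀ (Γ V₁ V₂ V₃ : Type u) [Group Γ] [MulAction Γ V₁] [MulAction Γ V₂] [MulAction Γ V₃]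
      (T₁ : SimpleGraph V₁) (T₂ : SimpleGraph V₂) (T₃ : SimpleGraph V₃), TreeAct Γ T₁ →
      TreeAct Γ T₂ → TreeAct Γ T₃ →
      (∀ (v w : V₁) (x : V₂) (y : V₃), T₁.Adj v w → InRC (MulAction.stabilizer Γ v ⊓
        MulAction.stabilizer Γ w ⊓ MulAction.stabilizer Γ x ⊓ MulAction.stabilizer Γ y :
          Subgroup Γ)) →
      (∀ (v w : V₁) (x : V₂) (y z : V₃), T₁.Adj v w → T₃.Adj y z →
        InN (MulAction.stabilizer Γ v ⊓ MulAction.stabilizer Γ w ⊓ MulAction.stabilizer Γ x ⊓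
          (MulAction.stabilizer Γ y ⊓ MulAction.stabilizer Γ z) : Subgroup Γ)) →
      (∀ (R : Type u) [Ring R], RegularRing R → ∀ n : ℕ, ⨆ v : V₁,
        ((KNegFun n).hom (MonoidAlgebra.mapDomainRingHom R
          (MulAction.stabilizer Γ v).subtype)).range = ⊤) ∧
      ((∀ v : V₁, H19.InL (MulAction.stabilizer Γ v)) → H19.InL Γ)) ∧
    (∀ (Γ V₁ V₂ V₃ : Type u) [Group Γ] [MulAction Γ V₁] [MulAction Γ V₂] [MulAction Γ V₃]
      (T₁ : SimpleGraph V₁) (T₂ : SimpleGraph V₂) (T₃ : SimpleGraph V₃), TreeAct Γ T₁ →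
      TreeAct Γ T₂ → TreeAct Γ T₃ →
      (∀ (v : V₁) (x : V₂) (y : V₃), InRC (MulAction.stabilizer Γ v ⊓
        MulAction.stabilizer Γ x ⊓ MulAction.stabilizer Γ y : Subgroup Γ)) →
      (∀ (v : V₁) (x : V₂) (y z : V₃), T₃.Adj y z → InN (MulAction.stabilizer Γ v ⊓
        MulAction.stabilizer Γ x ⊓ (MulAction.stabilizer Γ y ⊓ MulAction.stabilizer Γ z) :
          Subgroup Γ)) → H19.InL Γ) ∧
    (∀ (G : Type u) [Group G],
      (H19.InL G → ∀ (R : Type u) [Ring R], RegularRing R → ∀ n : ℕ,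
        Subsingleton (KNeg (n + 1) (MonoidAlgebra R G))) ∧
      (InRC G → H19.InL G) ∧ (InN G → InRC G) ∧
      (InRC G → ∀ H : Subgroup G, InRC H) ∧
      ((∀ S : Finset G, ∃ H : Subgroup G, (∀ s ∈ S, s ∈ H) ∧ H19.InL H) → H19.InL G) ∧
      ((∀ S : Finset G, ∃ H : Subgroup G, (∀ s ∈ S, s ∈ H) ∧ InRC H) → InRC G) ∧
      (H19.InL G → H19.InL (G × Multiplicative ℤ)) ∧
      (InRC G → InRC (G × Multiplicative ℤ)) ∧ (InN G → InN (G × Multiplicative ℤ))) ∧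
    InN PUnit.{u + 1} := by
  obtain ⟨-, k2, k3, k4, k5⟩ := H19.main.{u}
  exact ⟨fun Γ V V' _ _ _ T T' hT hT' hE hN => two_trees hT hT' hE hN,
    fun Γ V₁ V₂ V₃ _ _ _ _ T₁ T₂ T₃ h1 h2 h3 hV hE =>
      three H53.thp fok H91.sub H66.wald regularRing_equiv h1 h2 h3 hV hE,
    fun Γ V₁ V₂ V₃ _ _ _ _ T₁ T₂ T₃ h1 h2 h3 hV hE => three' H66.wald h1 h2 h3 hV hE,
    fun G _ => ⟨k2 G, k3 G, inRC_of_inN, fun h => H91.sub G h, (k5 G).1, (k5 G).2.1,
      (k5 G).2.2.1, (k5 G).2.2.2, inN_prod⟩, inN_triv⟩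

end Pool.Agent.NegK.TT
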