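import Mathlib

/-! # Elements of `SL₂` over a field of characteristic `p` with algebraic trace -/

set_option autoImplicit false

namespace Pool.Agent.NegK.TT

universe u

open Matrix

theorem sq_eq {K : Type u} [Field K] (g : SpecialLinearGroup (Fin 2) K) :
    (g : Matrix (Fin 2) (Fin 2) K) * g =
      Matrix.trace (g : Matrix (Fin 2) (Fin 2) K) • (g : Matrix (Fin 2) (Fin 2) K) - 1 := by
  have hdet : (g : Matrix (Fin 2) (Fin 2) K).det = 1 := g.2
  rw [Matrix.det_fin_two] at hdet
  ext i j
  fin_cases i <;> fin_cases j <;>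
    simp [Matrix.mul_apply, Fin.sum_univ_two, Matrix.trace, Matrix.diag] <;>
    first
      | ring1
      | linear_combination -hdet
      | linear_combination hdet

/-- If the trace of `g` is algebraic over the prime field then `g` has finite order. -/
theorem tor (K : Type u) [Field K] (p : ℕ) [Fact p.Prime] [CharP K p]
    (g : SpecialLinearGroup (Fin 2) K)
    (h : ∃ q : Polynomial ℤ, q.map (Int.castRingHom K) ≠ 0 ∧
      Polynomial.aeval (Matrix.trace (g : Matrix (Fin 2) (Fin 2) K)) q = 0) :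
    ∃ n : ℕ, 0 < n ∧ g ^ n = 1 := by
  letI : Algebra (ZMod p) K := ZMod.algebra K p
  set t : K := Matrix.trace (g : Matrix (Fin 2) (Fin 2) K) with ht
  obtain ⟨q, hq, hq'⟩ := h
  have hcomp : (algebraMap (ZMod p) K).comp (Int.castRingHom (ZMod p)) = Int.castRingHom K :=
    RingHom.ext_int _ _
  have halg : IsAlgebraic (ZMod p) t := by
    refine ⟨q.map (Int.castRingHom (ZMod p)), fun h0 => hq ?_, ?_⟩
    · rw [← hcomp, ← Polynomial.map_map, h0, Polynomial.map_zero]
    · rw [Polynomial.aeval_def, Polynomial.eval₂_map, hcomp]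
      rw [Polynomial.aeval_def] at hq'
      have e : algebraMap ℤ K = Int.castRingHom K := RingHom.ext_int _ _
      rw [← e]
      exact hq'
  have hint : IsIntegral (ZMod p) t := halg.isIntegral
  have hfg : (Subalgebra.toSubmodule (Algebra.adjoin (ZMod p) {t})).FG :=
    hint.fg_adjoin_singleton
  haveI : Module.Finite (ZMod p) (Algebra.adjoin (ZMod p) {t}) := Module.Finite.iff_fg.2 hfg
  haveI : Finite (Algebra.adjoin (ZMod p) {t}) := Module.finite_of_finite (ZMod p)
  let E := Algebra.adjoin (ZMod p) {t}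
  have htE : t ∈ E := Algebra.subset_adjoin rfl
  let f : E × E → Matrix (Fin 2) (Fin 2) K := fun ab =>
    (ab.1 : K) • (1 : Matrix (Fin 2) (Fin 2) K) + (ab.2 : K) • (g : Matrix (Fin 2) (Fin 2) K)
  have hpow : ∀ n : ℕ, ((g ^ n : SpecialLinearGroup (Fin 2) K) : Matrix (Fin 2) (Fin 2) K) ∈
      Set.range f := by
    intro n
    induction n with
    | zero =>
      refine ⟨(1, 0), ?_⟩
      show ((1 : E) : K) • (1 : Matrix (Fin 2) (Fin 2) K) + ((0 : E) : K) •
        (g : Matrix (Fin 2) (Fin 2) K) = _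
      rw [pow_zero, OneMemClass.coe_one, ZeroMemClass.coe_zero, one_smul, zero_smul, add_zero]
      rfl
    | succ n ih =>
      obtain ⟨⟨a, b⟩, hab⟩ := ih
      refine ⟨(-b, a + b * ⟨t, htE⟩), ?_⟩
      rw [pow_succ, Matrix.SpecialLinearGroup.coe_mul, ← hab]
      show (-b : K) • (1 : Matrix (Fin 2) (Fin 2) K) + (a + b * t : K) •
        (g : Matrix (Fin 2) (Fin 2) K) = ((a : K) • (1 : Matrix (Fin 2) (Fin 2) K) + (b : K) •
        (g : Matrix (Fin 2) (Fin 2) K)) * g
      rw [add_mul, smul_mul_assoc, smul_mul_assoc, one_mul, sq_eq, smul_sub, smul_smul, ← ht,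
        add_smul, neg_smul]
      abel
  have hfin : (Set.range f).Finite := Set.finite_range f
  obtain ⟨m, n, hmn, he⟩ := Finite.exists_ne_map_eq_of_infinite
    (fun n : ℕ => (⟨_, hpow n⟩ : Set.range f))
  have he' : g ^ m = g ^ n := by
    have := congrArg Subtype.val he
    exact Matrix.SpecialLinearGroup.ext_iff _ _ |>.2 fun i j => congrFun (congrFun this i) j
  rcases lt_or_gt_of_ne hmn with hlt | hlt
  · refine ⟨n - m, by omega, ?_⟩
    rw [pow_sub g hlt.le, ← he', mul_inv_cancel]
  · refine ⟨m - n, by omega, ?_⟩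
    rw [pow_sub g hlt.le, he', mul_inv_cancel]

end Pool.Agent.NegK.TT
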