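import Pool.Agent.Lib.MP_28303a_al.TT.Sl2
import Pool.Agent.Lib.MP_28303a_al.TT.Tor
import Pool.Agent.Lib.MP_28303a_al.TT.H76.BT

/-! # Torsionfree subgroups of `SL₂(K)` -/

set_option autoImplicit false
set_option linter.unusedSectionVars false
set_option linter.unusedVariables false

namespace Pool.Agent.NegK.TT

universe u v w

open Matrix MonoidAlgebra
open Pool.Agent.NegK.TW

theorem treeAct_hom {Γ Δ V : Type u} [Group Γ] [Group Δ] [MulAction Δ V] {G : SimpleGraph V}
    (h : TreeAct Δ G) (φ : Γ →* Δ) :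
    letI := MulAction.compHom V φ
    TreeAct Γ G :=
  letI := MulAction.compHom V φ
  ⟨h.tree, fun g v w hvw => h.adj (φ g) v w hvw, fun g v w hvw => h.noinv (φ g) v w hvw⟩

/-- SL2. Torsionfree groups of matrices in `SL₂(K)`, `K` of characteristic `p`, with three
discrete valuations such that the traces which are integral for them are algebraic over the prime
field. -/
theorem sl2_hom (K : Type u) [Field K] (p : ℕ)
    [Fact p.Prime] [CharP K p] (v : Fin 3 → Valuation K (WithZero (Multiplicative ℤ)))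
    (Γ : Type u) [Group Γ] (htf : TorsionFree Γ) (φ : Γ →* SpecialLinearGroup (Fin 2) K)
    (hφ : Function.Injective φ)
    (h : ∀ g : Γ, (∀ i, v i (Matrix.trace (φ g : Matrix (Fin 2) (Fin 2) K)) ≤ 1) →
      ∃ q : Polynomial ℤ, q.map (Int.castRingHom K) ≠ 0 ∧
        Polynomial.aeval (Matrix.trace (φ g : Matrix (Fin 2) (Fin 2) K)) q = 0) :
    H19.InL Γ := by
  obtain ⟨V₁, i₁, G₁, h1, k1⟩ := H76.bt K (v 0)
  obtain ⟨V₂, i₂, G₂, h2, k2⟩ := H76.bt K (v 1)
  obtain ⟨V₃, i₃, G₃, h3, k3⟩ := H76.bt K (v 2)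
  let j₁ := MulAction.compHom V₁ φ
  let j₂ := MulAction.compHom V₂ φ
  let j₃ := MulAction.compHom V₃ φ
  refine three_free (treeAct_hom h1 φ) (treeAct_hom h2 φ) (treeAct_hom h3 φ)
    fun g x y z hx hy hz => ?_
  obtain ⟨n, hn, hn'⟩ := tor K p (φ g) (h g fun i => by
    fin_cases i
    · exact k1 (φ g) x hx
    · exact k2 (φ g) y hy
    · exact k3 (φ g) z hz)
  rw [← map_pow] at hn'
  exact htf g n hn (hφ (hn'.trans (map_one φ).symm))

/-- The same for matrices with entries in a ring `A`. -/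
theorem sl2_ring (A : Type u) [CommRing A] (K : Type u) [Field K] (ι : A →+* K)
    (hι : Function.Injective ι) (p : ℕ)
    [Fact p.Prime] [CharP K p] (v : Fin 3 → Valuation K (WithZero (Multiplicative ℤ)))
    (hA : ∀ a : A, (∀ i, v i (ι a) ≤ 1) → ∃ q : Polynomial ℤ, q.map (Int.castRingHom K) ≠ 0 ∧
        Polynomial.aeval (ι a) q = 0)
    (Γ : Type u) [Group Γ] (htf : TorsionFree Γ) (φ : Γ →* SpecialLinearGroup (Fin 2) A)
    (hφ : Function.Injective φ) : H19.InL Γ := by
  have htr : ∀ g : SpecialLinearGroup (Fin 2) A,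
      Matrix.trace ((SpecialLinearGroup.map ι g : SpecialLinearGroup (Fin 2) K) :
        Matrix (Fin 2) (Fin 2) K) = ι (Matrix.trace (g : Matrix (Fin 2) (Fin 2) A)) := by
    intro g
    rw [Matrix.trace_fin_two, Matrix.trace_fin_two, map_add]
    rfl
  refine sl2_hom K p v Γ htf ((SpecialLinearGroup.map ι).comp φ) (fun g g' hg => hφ ?_) fun g hg => ?_
  · refine (Matrix.SpecialLinearGroup.ext_iff _ _).2 fun i j => hι ?_
    have h1 : (SpecialLinearGroup.map ι (φ g) : SpecialLinearGroup (Fin 2) K) =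
      SpecialLinearGroup.map ι (φ g') := hg
    have h2 := congrArg (fun x : SpecialLinearGroup (Fin 2) K =>
      (x : Matrix (Fin 2) (Fin 2) K) i j) h1
    exact h2
  · have h1 := htr (φ g)
    rw [MonoidHom.comp_apply, h1] at hg ⊢
    exact hA _ hg

end Pool.Agent.NegK.TT
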