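import Pool.Agent.Lib.MP_28303a_al.TT.Main3

/-! # Torsionfree subgroups of `SL₂(K)` -/

set_option autoImplicit false
set_option linter.unusedSectionVars false
set_option linter.unusedVariables false

namespace Pool.Agent.NegK.TT

universe u v w

open Matrix MonoidAlgebra
open Pool.Agent.NegK.TW

/-- BT. The tree of a discrete valuation. -/
def BtStatement : Prop :=
  ∀ (K : Type u) [Field K] (v : Valuation K (WithZero (Multiplicative ℤ))),
    Function.Surjective v →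
    ∃ (V : Type u) (_ : MulAction (SpecialLinearGroup (Fin 2) K) V) (G : SimpleGraph V),
      TreeAct (SpecialLinearGroup (Fin 2) K) G ∧
      ∀ (g : SpecialLinearGroup (Fin 2) K) (x : V), g • x = x →
        v (Matrix.trace (g : Matrix (Fin 2) (Fin 2) K)) ≤ 1

/-- TOR. -/
def TorStatement : Prop :=
  ∀ (K : Type u) [Field K] (p : ℕ) [Fact p.Prime] [CharP K p]
    (g : SpecialLinearGroup (Fin 2) K),
    (∃ q : Polynomial ℤ, q.map (Int.castRingHom K) ≠ 0 ∧
      Polynomial.aeval (Matrix.trace (g : Matrix (Fin 2) (Fin 2) K)) q = 0) →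
    ∃ n : ℕ, 0 < n ∧ g ^ n = 1

theorem inN_of_subsingleton (G : Type u) [Group G] (h : ∀ g : G, g = 1) : InN G :=
  inN_equiv (G := PUnit.{u + 1})
    { toFun := fun _ => 1
      invFun := fun _ => PUnit.unit
      left_inv := fun _ => rfl
      right_inv := fun g => (h g).symm
      map_mul' := fun _ _ => (mul_one _).symm } inN_triv regularRing_equiv

/-- Groups acting on three trees without a common nontrivial stabilizer. -/
theorem three_free {Γ V₁ V₂ V₃ : Type u} [Group Γ] [MulAction Γ V₁]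
    [MulAction Γ V₂] [MulAction Γ V₃] {G₁ : SimpleGraph V₁} {G₂ : SimpleGraph V₂}
    {G₃ : SimpleGraph V₃} (h1 : TreeAct Γ G₁) (h2 : TreeAct Γ G₂) (h3 : TreeAct Γ G₃)
    (h : ∀ (g : Γ) (v : V₁) (x : V₂) (y : V₃), g • v = v → g • x = x → g • y = y → g = 1) :
    H19.InL Γ := by
  refine three' H66.wald h1 h2 h3 (fun v x y => inRC_of_inN (inN_of_subsingleton _ fun g => ?_))
    fun v x y z _ => inN_of_subsingleton _ fun g => ?_
  · obtain ⟨g, ⟨h4, h5⟩, h6⟩ := g
    exact Subtype.ext (h g v x y h4 h5 h6)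
  · obtain ⟨g, ⟨h4, h5⟩, h6, h7⟩ := g
    exact Subtype.ext (h g v x y h4 h5 h6)

/-- SL2. -/
theorem sl2 (hBT : BtStatement.{u}) (hTOR : TorStatement.{u}) (K : Type u) [Field K] (p : ℕ)
    [Fact p.Prime] [CharP K p] (v : Fin 3 → Valuation K (WithZero (Multiplicative ℤ)))
    (hv : ∀ i, Function.Surjective (v i)) (Γ : Subgroup (SpecialLinearGroup (Fin 2) K))
    (htf : ∀ g ∈ Γ, ∀ n : ℕ, 0 < n → g ^ n = 1 → g = 1)
    (h : ∀ g ∈ Γ, (∀ i, v i (Matrix.trace (g : Matrix (Fin 2) (Fin 2) K)) ≤ 1) →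
      ∃ q : Polynomial ℤ, q.map (Int.castRingHom K) ≠ 0 ∧
        Polynomial.aeval (Matrix.trace (g : Matrix (Fin 2) (Fin 2) K)) q = 0) :
    H19.InL Γ := by
  obtain ⟨V₁, _, G₁, h1, k1⟩ := hBT K (v 0) (hv 0)
  obtain ⟨V₂, _, G₂, h2, k2⟩ := hBT K (v 1) (hv 1)
  obtain ⟨V₃, _, G₃, h3, k3⟩ := hBT K (v 2) (hv 2)
  refine three_free (treeAct_sub h1 Γ) (treeAct_sub h2 Γ) (treeAct_sub h3 Γ)
    fun g x y z hx hy hz => ?_
  obtain ⟨g, hg⟩ := g
  obtain ⟨n, hn, hn'⟩ := hTOR K p g (h g hg fun i => by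
    fin_cases i
    · exact k1 g x hx
    · exact k2 g y hy
    · exact k3 g z hz)
  exact Subtype.ext (htf g hg n hn hn')

end Pool.Agent.NegK.TT
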