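import Pool.Agent.Lib.MP_28303a_al.TT.Sl3
import Pool.Agent.Lib.MP_28303a_al.TT.H76.BtSt
import Pool.Agent.Lib.MP_28303a_al.TT.H91.Laur
import Pool.Agent.Lib.MP_28303a_al.TT.H66.Nsub
import Pool.Agent.Lib.MP_28303a_al.TT.H73.Ext

/-! # Torsionfree groups of matrices -/

set_option autoImplicit false
set_option linter.unusedSectionVars false
set_option linter.unusedVariables false

namespace Pool.Agent.NegK.TT

universe u v w

open Matrix MonoidAlgebra
open Pool.Agent.NegK.TW

theorem sl2_subring (p : ℕ) [Fact p.Prime] (K : Type u) [Field K] [Algebra (ZMod p) K]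
    (v : Fin 3 → Valuation K (WithZero (Multiplicative ℤ))) (A : Subring K)
    (hA : ∀ a ∈ A, (∀ i, v i a ≤ 1) → IsAlgebraic (ZMod p) a) (Γ : Type u) [Group Γ]
    (htf : TorsionFree Γ) (φ : Γ →* SpecialLinearGroup (Fin 2) A)
    (hφ : Function.Injective φ) : H19.InL Γ := by
  have : CharP K p := charP_of_injective_algebraMap (algebraMap (ZMod p) K).injective p
  exact sl2_ring A K A.subtype Subtype.val_injective p v
    (fun a ha => H91.exists_intPoly p K (RingHom.id K) (hA a a.2 ha)) Γ htf φ hφ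

theorem sl2_laurent (p : ℕ) [Fact p.Prime] (F : Type u) [Field F]
    [Algebra (ZMod p) F] [Algebra.IsAlgebraic (ZMod p) F] (m : ℕ) (Γ : Type u) [Group Γ]
    (htf : TorsionFree Γ)
    (φ : Γ →* SpecialLinearGroup (Fin 2) (AddMonoidAlgebra F ((Fin 2 → ℤ) × (Fin m → ℕ))))
    (hφ : Function.Injective φ) : H19.InL Γ :=
  H91.sl2_laurent F p m Γ htf φ hφ

end Pool.Agent.NegK.TT
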