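import Pool.Agent.Lib.MP_28303a_al.TW.H19.Main

/-! # Two trees: definitions

Notation of `TW`: rows are written on the left of matrices, `x ᵥ* M`; a free module
`k[Γ]^J` has degrees `dg : J → D`, the element `h e_j` has the degree `h • dg j`.
`T : OTree Γ V E` is the second tree.  Paper: `Paper.md`. -/

set_option autoImplicit false
set_option linter.unusedSectionVars false
set_option linter.unusedVariables false

namespace Pool.Agent.NegK.TT

universe u v w

open Matrix MonoidAlgebra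
open Pool.Agent.NegK.TW

/-! ### Sides of edges -/

section tree

variable {Γ : Type u} [Group Γ] {V E : Type u} [MulAction Γ V] [MulAction Γ E]
  (T : OTree Γ V E)

/-- The side of the edge `e` which contains `v`. -/
def sd (e : E) (v : V) : Set V := {u | u ∈ T.H e ↔ v ∈ T.H e}

/-- `v` is an end of `e`. -/
def Inc (e : E) (v : V) : Prop := T.o e = v ∨ T.t e = v

/-- The facts on trees which are used. -/
structure TFacts (b : V) : Prop where
  /-- the sets `H e` are equivariant -/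
  heq : ∀ (g : Γ) (e : E) (v : V), g • v ∈ T.H (g • e) ↔ v ∈ T.H e
  /-- connectedness -/
  conn : ∀ F : V → Prop, (∀ e, F (T.o e) ↔ F (T.t e)) → ∀ v w, F v ↔ F w
  /-- half trees are nested -/
  nest : ∀ e e' : E, e' ≠ e → (∀ u, u ∈ T.H e → u ∈ sd T e' (T.t e)) ∨
    (∀ u, u ∉ T.H e → u ∈ sd T e' (T.t e))
  /-- the first edge on the way from `v` to `u` -/
  adj : ∀ v u : V, u ≠ v → ∃ e, (Inc T e v ∧ u ∉ sd T e v) ∧
    ∀ e', Inc T e' v → u ∉ sd T e' v → e' = e
  /-- the sides of the edges at `v` are the smallest ones -/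
  mon : ∀ (e' : E) (v : V), ∃ e, Inc T e v ∧ sd T e v ⊆ sd T e' v
  /-- finitely many edges separate two vertices -/
  fin : ∀ u v : V, {e : E | u ∉ sd T e v}.Finite
  /-- finite full subtrees -/
  sub : ∀ F : Finset V, ∃ (V₀ : Finset V) (E₀ : Finset E), b ∈ V₀ ∧ F ⊆ V₀ ∧
    (∀ e, e ∈ E₀ ↔ T.o e ∈ V₀ ∧ T.t e ∈ V₀) ∧
    (∀ v, v ∉ V₀ → ∃ e, ∀ u ∈ V₀, u ∉ sd T e v) ∧
    (∀ e, ∀ u ∈ V₀, ∀ v ∈ V₀, u ∉ sd T e v → e ∈ E₀)

end tree

/-! ### Families of additive groups of rows -/

section fam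

variable {k : Type u} [Ring k] {Γ : Type u} [Group Γ] {X D : Type u} [MulAction Γ X]
  [MulAction Γ D] {J Λ : Type}

/-- An equivariant family of additive groups of rows. -/
structure EqFam (k Γ : Type u) [Ring k] [Group Γ] (X : Type u) [MulAction Γ X] (J : Type) :
    Type u where
  A : X → AddSubgroup (J → MonoidAlgebra k Γ)
  smul : ∀ (g : Γ) (c : k) (v : X) (x : J → MonoidAlgebra k Γ), x ∈ A v →
    (single g c : MonoidAlgebra k Γ) • x ∈ A (g • v)

/-- The rows `y z` for `y` with locations in `S` (the location of `h e_l` is `h • b`). -/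
noncomputable def Wr [Fintype Λ] (b : X) (z : Matrix Λ J (MonoidAlgebra k Γ)) (S : Set X) :
    AddSubgroup (J → MonoidAlgebra k Γ) where
  carrier := {x | ∃ y : Λ → MonoidAlgebra k Γ, Spt (fun _ => b) S y ∧ y ᵥ* z = x}
  zero_mem' := ⟨0, Spt.zero, Matrix.zero_vecMul _⟩
  add_mem' := by
    rintro _ _ ⟨y, hy, rfl⟩ ⟨y', hy', rfl⟩
    exact ⟨y + y', hy.add hy', Matrix.add_vecMul _ _ _⟩
  neg_mem' := by
    rintro _ ⟨y, hy, rfl⟩
    exact ⟨-y, hy.neg, Matrix.neg_vecMul _ _⟩

/-- The rows with components of degree `v` in `A v`: here `(j, i)` has the degree `vt i` and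
the components are added up over `i`. -/
noncomputable def sm (k Γ : Type u) [Ring k] [Group Γ] (J I : Type) [DecidableEq J] :
    Matrix (J × I) J (MonoidAlgebra k Γ) := fun p j => if p.1 = j then 1 else 0

/-- The row of `k[Γ]^(J × I)` of degree `v` corresponding to the row `m` of `k[Γ]^J`. -/
noncomputable def lf {I : Type} (vt : I → X) (v : X) (m : J → MonoidAlgebra k Γ) :
    J × I → MonoidAlgebra k Γ := fun p => fil {γ | γ • vt p.2 = v} (m p.1)

/-- The degree preserving part of the matrix `μ`, on `k[Γ]^(J × I)`. -/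
noncomputable def th {I : Type} (vt : I → X) (μ : Matrix J J (MonoidAlgebra k Γ)) :
    Matrix (J × I) (J × I) (MonoidAlgebra k Γ) :=
  fun p q => fil {γ | γ • vt q.2 = vt p.2} (μ p.1 q.1)

/-- The membership condition of the modules `𝕄`. -/
def MemG [Fintype J] [DecidableEq J] {I : Type} [Fintype I] (vt : I → X)
    (A : X → AddSubgroup (J → MonoidAlgebra k Γ)) (x : J × I → MonoidAlgebra k Γ) : Prop :=
  ∀ v : X, (res (fun p : J × I => vt p.2) {v} x) ᵥ* sm k Γ J I ∈ A v

/-- The supports of the rows in `A v` are covered. -/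
def CovG {I : Type} (vt : I → X) (A : X → AddSubgroup (J → MonoidAlgebra k Γ)) : Prop :=
  ∀ v : X, ∀ x ∈ A v, ∀ (j : J) (γ : Γ), (x j).coeff γ ≠ 0 → ∃ i, γ • vt i = v

/-- The family is stable under `μ`. -/
def StaG [Fintype J] (A : X → AddSubgroup (J → MonoidAlgebra k Γ))
    (μ : Matrix J J (MonoidAlgebra k Γ)) : Prop := ∀ v : X, ∀ x ∈ A v, x ᵥ* μ ∈ A v

/-- The family is graded. -/
def GraG (dg : J → D) (A : X → AddSubgroup (J → MonoidAlgebra k Γ)) : Prop :=
  ∀ v : X, ∀ x ∈ A v, ∀ c : D, res dg {c} x ∈ A v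

/-- The family is generated by the translates of the rows `w a ∈ A (p a)`, `a : Θ`. -/
def GenG {Θ : Type} (A : X → AddSubgroup (J → MonoidAlgebra k Γ))
    (w : Θ → J → MonoidAlgebra k Γ) (p : Θ → X) : Prop :=
  (∀ a, w a ∈ A (p a)) ∧ ∀ v : X, ∀ x ∈ A v, x ∈ AddSubgroup.closure
    {y : J → MonoidAlgebra k Γ | ∃ (a : Θ) (h : Γ) (c : k), h • p a = v ∧
      y = (single h c : MonoidAlgebra k Γ) • w a}

end fam

/-! ### The families for the second tree -/

section mv

variable {k : Type u} [Ring k] {Γ : Type u} [Group Γ] {V E : Type u} [MulAction Γ V]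
  [MulAction Γ E] {J Λ : Type} [Fintype Λ] (T : OTree Γ V E) (b : V)
  (z : Matrix Λ J (MonoidAlgebra k Γ))

/-- `M_v`: the intersection of the `W(S)`, `S` the sides containing `v` of all edges. -/
noncomputable def Mv (v : V) : AddSubgroup (J → MonoidAlgebra k Γ) := ⨅ e : E, Wr b z (sd T e v)

/-- `M_e`. -/
noncomputable def Me (e : E) : AddSubgroup (J → MonoidAlgebra k Γ) := Mv T b z (T.o e) ⊓ Mv T b z (T.t e)

end mv

/-! ### Nilpotent endomorphisms -/

section nil

variable {B : Type u} [Ring B] {M : Type u} [AddCommGroup M]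

/-- The matrix of a linear map between modules of rows. -/
def mOf {ι κ : Type} [DecidableEq ι] (f : (ι → B) →ₗ[B] (κ → B)) : Matrix ι κ B :=
  fun i => f (Pi.single i 1)

/-- The value of the determinant on `1 - θ` is `g`, for an endomorphism `θ` of a finitely
generated projective module. -/
def Phi (χ : Det1 B M) (Y : Type u) [AddCommGroup Y] [Module B Y] (θ : Y →ₗ[B] Y) (g : M) :
    Prop :=
  ∃ (ι : Type) (_ : Fintype ι) (_ : DecidableEq ι) (i : Y →ₗ[B] (ι → B))
    (p : (ι → B) →ₗ[B] Y), p ∘ₗ i = LinearMap.id ∧ χ.val (1 - mOf (i ∘ₗ θ ∘ₗ p)) = g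

/-- The classes `𝒵_n`: pairs `(Y, θ)` with a resolution of length `n` by pairs with value `0`. -/
def Zc (χ : Det1 B M) : ℕ → (Y : Type u) → [AddCommGroup Y] → [Module B Y] →
    (Y →ₗ[B] Y) → Prop
  | 0, Y, _, _, θ => Module.Finite B Y ∧ Module.Projective B Y ∧ IsNilpotent θ ∧ Phi χ Y θ 0
  | n + 1, Y, _, _, θ => ∃ (ι : Type) (_ : Fintype ι) (_ : DecidableEq ι) (N : Matrix ι ι B)
      (p : (ι → B) →ₗ[B] Y) (θ' : LinearMap.ker p →ₗ[B] LinearMap.ker p),
      IsNilpotent N ∧ χ.val (1 - N) = 0 ∧ Function.Surjective p ∧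
      (∀ x, p (x ᵥ* N) = θ (p x)) ∧ (∀ x, (θ' x : ι → B) = (x : ι → B) ᵥ* N) ∧
      Zc χ n (LinearMap.ker p) θ'

end nil

end Pool.Agent.NegK.TT
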