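import Pool.Agent.Lib.MP_28303a_al.TT.Defs

/-! # Interface: groups acting on two trees

`SplitStatement`: sections 1 - 3 of the paper (finding 4838). -/

set_option autoImplicit false
set_option linter.unusedSectionVars false
set_option linter.unusedVariables false

namespace Pool.Agent.NegK.TT

open Pool.Agent.NegK.TW Matrix MonoidAlgebra

universe u

/-- Output of the splitting along the second tree: an exact sequence `0 → M1 → M0 → k[Γ]^J → 0` of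
modules generated by the rows of `Z1`, `Z0`, with endomorphisms `μ1`, `μ0`, `μ`. -/
structure Splitting (k Γ D V E : Type u) [Ring k] [Group Γ] [MulAction Γ D] [MulAction Γ V]
    [MulAction Γ E] {J : Type} [Fintype J] (dg : J → D) (μ : Matrix J J (MonoidAlgebra k Γ))
    (d : ℕ) where
  (J0 J1 L0 L1 : Type)
  [fJ0 : Fintype J0]
  [fJ1 : Fintype J1]
  [fL0 : Fintype L0]
  [fL1 : Fintype L1]
  d0 : J0 → D × V
  d1 : J1 → D × E
  μ0 : Matrix J0 J0 (MonoidAlgebra k Γ)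
  μ1 : Matrix J1 J1 (MonoidAlgebra k Γ)
  P : Matrix J0 J (MonoidAlgebra k Γ)
  Δ : Matrix J1 J0 (MonoidAlgebra k Γ)
  Z0 : Matrix L0 J0 (MonoidAlgebra k Γ)
  Z1 : Matrix L1 J1 (MonoidAlgebra k Γ)
  c0 : L0 → D × V
  c1 : L1 → D × E
  /-- the generators are homogeneous -/
  hom0 : ∀ l, Spt d0 {c0 l} (Z0 l)
  hom1 : ∀ l, Spt d1 {c1 l} (Z1 l)
  /-- the degrees lie in the orbits of the degrees of `J` (also those of `J0`, `J1`) -/
  orb0 : ∀ l, ∃ (j : J) (h : Γ), (c0 l).1 = h • dg j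
  orb1 : ∀ l, ∃ (j : J) (h : Γ), (c1 l).1 = h • dg j
  orbJ0 : ∀ i, ∃ (j : J) (h : Γ), (d0 i).1 = h • dg j
  orbJ1 : ∀ i, ∃ (j : J) (h : Γ), (d1 i).1 = h • dg j
  /-- the modules are graded -/
  gr0 : ∀ x ∈ LinearMap.range Z0.vecMulLinear, ∀ p : D × V,
    res d0 {p} x ∈ LinearMap.range Z0.vecMulLinear
  gr1 : ∀ x ∈ LinearMap.range Z1.vecMulLinear, ∀ p : D × E,
    res d1 {p} x ∈ LinearMap.range Z1.vecMulLinear
  /-- exactness -/
  surj : ∀ x : J → MonoidAlgebra k Γ, ∃ y ∈ LinearMap.range Z0.vecMulLinear, y ᵥ* P = x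
  maps : ∀ x ∈ LinearMap.range Z1.vecMulLinear, x ᵥ* Δ ∈ LinearMap.range Z0.vecMulLinear
  inj : ∀ x ∈ LinearMap.range Z1.vecMulLinear, x ᵥ* Δ = 0 → x = 0
  comp : Δ * P = 0
  exact : ∀ x ∈ LinearMap.range Z0.vecMulLinear, x ᵥ* P = 0 →
    ∃ y ∈ LinearMap.range Z1.vecMulLinear, y ᵥ* Δ = x
  /-- the endomorphisms -/
  end0 : ∀ x ∈ LinearMap.range Z0.vecMulLinear, x ᵥ* μ0 ∈ LinearMap.range Z0.vecMulLinear
  end1 : ∀ x ∈ LinearMap.range Z1.vecMulLinear, x ᵥ* μ1 ∈ LinearMap.range Z1.vecMulLinear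
  comm0 : ∀ x ∈ LinearMap.range Z0.vecMulLinear, x ᵥ* μ0 ᵥ* P = x ᵥ* P ᵥ* μ
  comm1 : ∀ x ∈ LinearMap.range Z1.vecMulLinear, x ᵥ* μ1 ᵥ* Δ = x ᵥ* Δ ᵥ* μ0
  /-- chain nilpotent -/
  chain0 : ∀ l : List (D × V), l.length = d → ∀ x ∈ LinearMap.range Z0.vecMulLinear,
    itc d0 μ0 l x = 0
  chain1 : ∀ l : List (D × E), l.length = d → ∀ x ∈ LinearMap.range Z1.vecMulLinear,
    itc d1 μ1 l x = 0

/-- SPLIT (sections 1 - 3; the hypotheses are the output of FAM). -/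
def SplitStatement : Prop :=
  ∀ (k Γ D V E : Type u) [Ring k] [Group Γ] [MulAction Γ D] [MulAction Γ V] [MulAction Γ E]
    (T : OTree Γ V E) (b : V), T.Subtrees b →
    ∀ (J Λ : Type) [Fintype J] [DecidableEq J] [Fintype Λ] [DecidableEq Λ] (dg : J → D)
    (μ : Matrix J J (MonoidAlgebra k Γ)) (d : ℕ), ChainNil dg μ d →
    ∀ (z : Matrix Λ J (MonoidAlgebra k Γ)) (N : Matrix Λ Λ ℤ) (c : Λ → D) (a : J → Λ),
    (∀ l, Spt dg {c l} (z l)) → (∀ l, ∃ (j : J) (h : Γ), c l = h • dg j) →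
    z * μ = N.map (Int.castRingHom (MonoidAlgebra k Γ)) * z →
    (∀ j, z (a j) = Pi.single j 1) →
    Nonempty (Splitting k Γ D V E dg μ d)

end Pool.Agent.NegK.TT
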