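import Pool.Agent.Lib.MP_28303a_al.TT.Rows2

/-! # Two trees: assembly -/

set_option autoImplicit false
set_option linter.unusedSectionVars false
set_option linter.unusedVariables false

namespace Pool.Agent.NegK.TT

universe u v w

open Matrix MonoidAlgebra
open Pool.Agent.NegK.TW

/-- The condition (N) with a property `P` of the path groups of rank `0`. -/
def CondP (Γ : Type u) [Group Γ] {V : Type u} [MulAction Γ V] (P : Subgroup Γ → Prop)
    (T : SimpleGraph V) : Prop :=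
  ∀ (ι : Type) [Finite ι] (a b : ι → V) (K : ι → Subgroup Γ), (∀ i, T.Adj (a i) (b i)) →
    (∀ i, (K i).FG) →
    (∀ i, K i ≤ MulAction.stabilizer Γ (a i) ⊓ MulAction.stabilizer Γ (b i)) →
    ∃ (K' : ι → Subgroup Γ) (m M : ℕ) (ρ : Subgroup Γ → ℕ),
      (∀ i, K i ≤ K' i ∧ K' i ≤ MulAction.stabilizer Γ (a i) ⊓ MulAction.stabilizer Γ (b i)) ∧
      (∀ S ∈ PathGroups T a b K' m, ρ S ≤ M) ∧
      (∀ S ∈ PathGroups T a b K' m, ρ S = 0 → P S) ∧
      (∀ S ∈ PathGroups T a b K' m, ∀ S' ∈ PathGroups T a b K' m, S ≤ S' → ρ S ≤ ρ S') ∧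
      (∀ S ∈ PathGroups T a b K' m, ∀ S' ∈ PathGroups T a b K' m, S < S' → ρ S' ≠ 0 →
        ρ S < ρ S') ∧
      (∀ S ∈ PathGroups T a b K' m, ρ S ≠ 0 → ∀ g : Γ, (∀ v : V, g • v ≠ v) →
        S.map (MulAut.conj g).toMonoidHom = S → H19.InL (S ⊔ Subgroup.zpowers g : Subgroup Γ))

/-- The stabilizers of long reduced paths have the property `P`. -/
def LongP (Γ : Type u) [Group Γ] {V : Type u} [MulAction Γ V] (P : Subgroup Γ → Prop)
    (G : SimpleGraph V) : Prop :=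
  ∃ m : ℕ, ∀ (l : ℕ), m ≤ l → ∀ v : ℕ → V, (∀ j ≤ l, G.Adj (v j) (v (j + 1))) →
    (∀ j < l, v j ≠ v (j + 2)) → P (⨅ j : Fin (l + 2), MulAction.stabilizer Γ (v j) : Subgroup Γ)

theorem condP_pathCond (hfun : FunStatement.{u}) {Γ V : Type u} [Group Γ] [MulAction Γ V]
    {P : Subgroup Γ → Prop} {T : SimpleGraph V} (h : CondP Γ P T) :
    PathCond P (fun H : Subgroup Γ => InS H) T := by
  intro ι _ a b K h1 h2 h3
  obtain ⟨K', m, M, ρ, h4, h5, h6, h7, h8, h9⟩ := h ι a b K h1 h2 h3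
  exact ⟨K', m, M, ρ, h4, ⟨h5, h6, h7, h8, fun S hS h0 g hg h =>
    (H19.inS_iff hfun _).1 (h9 S hS h0 g hg h)⟩⟩

theorem longP_pathCond {Γ V : Type u} [Group Γ] [MulAction Γ V] {P Q : Subgroup Γ → Prop}
    {G : SimpleGraph V} (h : LongP Γ P G) : PathCond P Q G := by
  intro ι _ a b K hab hfg hK
  obtain ⟨m, hm⟩ := h
  refine ⟨fun i => MulAction.stabilizer Γ (a i) ⊓ MulAction.stabilizer Γ (b i), m, 0, fun _ => 0,
    fun i => ⟨hK i, le_rfl⟩, ⟨fun _ _ => le_rfl, ?_, fun _ _ _ _ _ => le_rfl,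
      fun _ _ _ _ _ h => absurd rfl h, fun _ _ h => absurd rfl h⟩⟩
  rintro S ⟨l, hl, v, i, g, h1, h2, h3, h4⟩ _
  have e : S = ⨅ j : Fin (l + 2), MulAction.stabilizer Γ (v j) := by
    rw [h4, ← H14.iInf_pairs l (fun j => MulAction.stabilizer Γ (v j))]
    congr 1
    funext j
    have := h3 (j : ℕ) (Nat.lt_succ_iff.1 j.2)
    rw [H14.map_conj_stab, this.1, this.2]
  rw [e]
  exact hm l hl v h1 h2

/-- Properties of subgroups which pass to smaller subgroups. -/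
theorem longP_of_edges {Γ V : Type u} [Group Γ] [MulAction Γ V] {P : Subgroup Γ → Prop}
    (hP : ∀ H H' : Subgroup Γ, H ≤ H' → P H' → P H) {G : SimpleGraph V}
    (h : ∀ v w, G.Adj v w → P (MulAction.stabilizer Γ v ⊓ MulAction.stabilizer Γ w)) :
    LongP Γ P G := by
  refine ⟨0, fun l _ v h1 _ => ?_⟩
  refine hP _ _ (le_inf ?_ ?_) (h (v 0) (v 1) (h1 0 (Nat.zero_le _)))
  · exact iInf_le (fun j : Fin (l + 2) => MulAction.stabilizer Γ (v j)) 0
  · exact (iInf_le (fun j : Fin (l + 2) => MulAction.stabilizer Γ (v j)) ⟨1, by omega⟩)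

theorem inRC_equiv {G H : Type u} [Group G] [Group H] (e : G ≃* H) (h : InRC G) : InRC H := by
  intro R _ hR
  exact H89.rci.1 _ _ (MonoidAlgebra.mapDomainRingEquiv R e) (h R hR)

end Pool.Agent.NegK.TT
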