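import Pool.Agent.Lib.MP_28303a_al.TT.Main0

/-! # Two trees: assembly -/

set_option autoImplicit false
set_option linter.unusedSectionVars false
set_option linter.unusedVariables false

namespace Pool.Agent.NegK.TT

universe u v w

open Matrix MonoidAlgebra
open Pool.Agent.NegK.TW

section sub

variable {Γ : Type u} [Group Γ]

/-- Intersection with a subgroup. -/
noncomputable def subEquiv (H K : Subgroup Γ) : K.subgroupOf H ≃* (H ⊓ K : Subgroup Γ) := by
  have e : K.subgroupOf H = (H ⊓ K : Subgroup Γ).subgroupOf H := by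
    rw [Subgroup.inf_subgroupOf_left]
  exact (MulEquiv.subgroupCongr e).trans (Subgroup.subgroupOfEquivOfLe inf_le_left)

theorem inRC_le (hSUB : SubStatement.{u}) {H K : Subgroup Γ} (h : H ≤ K) (hK : InRC K) :
    InRC H :=
  inRC_equiv (Subgroup.subgroupOfEquivOfLe h) (hSUB K hK (H.subgroupOf K))

theorem inN_equiv {G H : Type u} [Group G] [Group H] (e : G ≃* H) (h : InN G)
    (hreg : ∀ (A B : Type u) [Ring A] [Ring B], (A ≃+* B) → RegularRing A → RegularRing B) :
    InN H := by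
  intro R _ hR
  exact hreg _ _ (MonoidAlgebra.mapDomainRingEquiv R e) (h R hR)

theorem sub_inf (H K K' : Subgroup Γ) :
    (K ⊓ K').subgroupOf H = K.subgroupOf H ⊓ K'.subgroupOf H := rfl

variable {V : Type u} [MulAction Γ V]

theorem stab_sub (H : Subgroup Γ) (x : V) :
    MulAction.stabilizer H x = (MulAction.stabilizer Γ x).subgroupOf H := by
  ext g
  rfl

theorem treeAct_sub {G : SimpleGraph V} (h : TreeAct Γ G) (H : Subgroup Γ) : TreeAct H G :=
  ⟨h.tree, fun g v w hvw => h.adj g v w hvw, fun g v w hvw => h.noinv g v w hvw⟩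

theorem inRC_stab_sub {H : Subgroup Γ} {x : V}
    (h : InRC (H ⊓ MulAction.stabilizer Γ x : Subgroup Γ)) :
    InRC (MulAction.stabilizer H x) := by
  rw [stab_sub]
  exact inRC_equiv (subEquiv H _).symm h

end sub

/-- A group acting on a tree with regular coherent stabilizers is in `𝒮`. -/
theorem inL_of_stab (hSUB : SubStatement.{u}) {Γ V : Type u} [Group Γ] [MulAction Γ V]
    {G : SimpleGraph V} (hG : TreeAct Γ G) (h : ∀ v : V, InRC (MulAction.stabilizer Γ v)) :
    H19.InL Γ := by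
  obtain ⟨h1, -, h3, -, -⟩ := H19.main.{u}
  have hE : ∀ v w : V, InRC (MulAction.stabilizer Γ v ⊓ MulAction.stabilizer Γ w :
      Subgroup Γ) := fun v w => inRC_le hSUB inf_le_left (h v)
  refine (h1 Γ V G hG (fun v w _ => h3 _ (hE v w)) (Or.inr ⟨0, fun l _ v _ _ => ?_⟩)).2
    fun v => h3 _ (h v)
  exact inRC_le hSUB (iInf_le (fun j : Fin (l + 2) => MulAction.stabilizer Γ (v j)) 0) (h (v 0))

theorem p2_le (hSUB : SubStatement.{u}) {Γ V' : Type u} [Group Γ] [MulAction Γ V']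
    {H K : Subgroup Γ} (h : H ≤ K) (hK : P2 (Γ := Γ) V' K) : P2 (Γ := Γ) V' H :=
  fun x => inRC_le hSUB (inf_le_inf_right _ h) (hK x)

theorem inL_of_p2 (hSUB : SubStatement.{u}) {Γ V' : Type u} [Group Γ] [MulAction Γ V']
    {G' : SimpleGraph V'} (hG' : TreeAct Γ G') {H : Subgroup Γ} (h : P2 (Γ := Γ) V' H) :
    H19.InL H :=
  inL_of_stab hSUB (treeAct_sub hG' H) fun x => inRC_stab_sub (h x)

/-- The main theorem, for two trees. -/
theorem two (hTHP : ThpStatement.{u}) (hFOK : FokStatement.{u}) {Γ V V' : Type u} [Group Γ]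
    [MulAction Γ V] [MulAction Γ V'] {G : SimpleGraph V} {G' : SimpleGraph V'} (hG : TreeAct Γ G)
    (hG' : TreeAct Γ G')
    (hE : ∀ v w, G.Adj v w →
      H19.InL (MulAction.stabilizer Γ v ⊓ MulAction.stabilizer Γ w : Subgroup Γ))
    (hN : CondP Γ (P2 (Γ := Γ) V') G ∨ LongP Γ (P2 (Γ := Γ) V') G) :
    (∀ (R : Type u) [Ring R], RegularRing R → ∀ n : ℕ, ⨆ v : V,
      ((KNegFun n).hom (mdr R (MulAction.stabilizer Γ v).subtype)).range = ⊤) ∧
    ((∀ v : V, H19.InL (MulAction.stabilizer Γ v)) → H19.InL Γ) := by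
  have hP : PathCond (P2 (Γ := Γ) V') (fun H : Subgroup Γ => InS H) G := by
    rcases hN with h | h
    · exact condP_pathCond H17.fun_main h
    · exact longP_pathCond h
  have key : ∀ (k : Type u) [Ring k], RegularRing k →
      ⨆ v : V, img k (MulAction.stabilizer Γ v) = ⊤ := fun k _ hk =>
    hTHP k Γ V G hG (fun v w hvw => hE v w hvw k hk) (P2 (Γ := Γ) V')
      (hFOK k Γ V' G' hG' hk) (H19.pathCond_mono (fun H h => h) (fun H h => (h k hk).1) hP)
  refine ⟨fun R _ hR n => H19.vgen (fun v : V => MulAction.stabilizer Γ v)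
    (fun k _ hk => key k hk) n R hR, fun hV R _ hR => ?_⟩
  exact H19.surj_of_sup _ (key _ (H78.lreg H50.ext R hR)) fun v => hV v R hR

/-- The main theorem for three trees. -/
theorem three (hTHP : ThpStatement.{u}) (hFOK : FokStatement.{u}) (hSUB : SubStatement.{u})
    (hWALD : WaldStatement.{u})
    (hreg : ∀ (A B : Type u) [Ring A] [Ring B], (A ≃+* B) → RegularRing A → RegularRing B)
    {Γ V₁ V₂ V₃ : Type u} [Group Γ] [MulAction Γ V₁] [MulAction Γ V₂] [MulAction Γ V₃]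
    {G₁ : SimpleGraph V₁} {G₂ : SimpleGraph V₂} {G₃ : SimpleGraph V₃} (h1 : TreeAct Γ G₁)
    (h2 : TreeAct Γ G₂) (h3 : TreeAct Γ G₃)
    (hV : ∀ (v w : V₁) (x : V₂) (y : V₃), G₁.Adj v w → InRC (MulAction.stabilizer Γ v ⊓
      MulAction.stabilizer Γ w ⊓ MulAction.stabilizer Γ x ⊓ MulAction.stabilizer Γ y :
        Subgroup Γ))
    (hE : ∀ (v w : V₁) (x : V₂) (y z : V₃), G₁.Adj v w → G₃.Adj y z →
      InN (MulAction.stabilizer Γ v ⊓ MulAction.stabilizer Γ w ⊓ MulAction.stabilizer Γ x ⊓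
        (MulAction.stabilizer Γ y ⊓ MulAction.stabilizer Γ z) : Subgroup Γ)) :
    (∀ (R : Type u) [Ring R], RegularRing R → ∀ n : ℕ, ⨆ v : V₁,
      ((KNegFun n).hom (mdr R (MulAction.stabilizer Γ v).subtype)).range = ⊤) ∧
    ((∀ v : V₁, H19.InL (MulAction.stabilizer Γ v)) → H19.InL Γ) := by
  have hp2 : ∀ v w, G₁.Adj v w →
      P2 (Γ := Γ) V₂ (MulAction.stabilizer Γ v ⊓ MulAction.stabilizer Γ w) := by
    intro v w hvw x
    refine hWALD _ V₃ G₃ (treeAct_sub h3 _) (fun y => inRC_stab_sub (hV v w x y hvw))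
      fun y z hyz => ?_
    rw [stab_sub, stab_sub, ← sub_inf]
    exact inN_equiv (subEquiv _ _).symm (hE v w x y z hvw hyz) hreg
  exact two hTHP hFOK h1 h2 (fun v w hvw => inL_of_p2 hSUB h2 (hp2 v w hvw))
    (Or.inr (longP_of_edges (fun H K h => p2_le hSUB h) hp2))

end Pool.Agent.NegK.TT
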