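import Pool.Agent.Lib.MP_28303a_al.TT.Defs
import Pool.Agent.Lib.MP_28303a_al.TT47.Zm

/-! # Two trees: interface

Every module is a statement `XStatement : Prop`, to be proved as `theorem x (h : UsedStatement) ... :
XStatement`.  Proofs: `Paper.md`.  Rows are written on the left of matrices: `x ᵥ* M`. -/

set_option autoImplicit false
set_option linter.unusedSectionVars false
set_option linter.unusedVariables false

namespace Pool.Agent.NegK.TT

universe u v w

open Matrix MonoidAlgebra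
open Pool.Agent.NegK.TW

/-- The data given by FAM: homogeneous rows `z l` with `z μ = N z`, `N` integral. -/
structure Dat {k : Type u} [Ring k] {Γ : Type u} [Group Γ] {D : Type u} [MulAction Γ D]
    {J Λ : Type} [Fintype J] [DecidableEq J] [Fintype Λ] [DecidableEq Λ] (dg : J → D)
    (μ : Matrix J J (MonoidAlgebra k Γ)) (z : Matrix Λ J (MonoidAlgebra k Γ))
    (N : Matrix Λ Λ ℤ) (c : Λ → D) (a : J → Λ) : Prop where
  hz : ∀ l, Spt dg {c l} (z l)
  hc : ∀ l, ∃ (j : J) (h : Γ), c l = h • dg j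
  hN : z * μ = N.map (Int.castRingHom (MonoidAlgebra k Γ)) * z
  ha : ∀ j, z (a j) = Pi.single j 1

/-! ## Part 3. Nilpotent endomorphisms (section 4; (C), (M), (X), (D): `TT47/Zm.lean`) -/

/-- FG (200 lines). FAM for graded submodules. -/
def FgStatement : Prop :=
  ∀ (k Γ D : Type u) [Ring k] [Group Γ] [MulAction Γ D] (J : Type) [Fintype J] [DecidableEq J]
    (dg : J → D) (m : Matrix J J (MonoidAlgebra k Γ)) (d : ℕ)
    (Y : Submodule (MonoidAlgebra k Γ) (J → MonoidAlgebra k Γ)),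
    (∀ (c : D), ∀ x ∈ Y, res dg {c} x ∈ Y) → (∀ x ∈ Y, x ᵥ* m ∈ Y) →
    (∀ l : List D, l.length = d → ∀ x ∈ Y, itc dg m l x = 0) → Y.FG →
    ∃ (Λ : Type) (_ : Fintype Λ) (_ : DecidableEq Λ) (z : Matrix Λ J (MonoidAlgebra k Γ))
      (N : Matrix Λ Λ ℤ) (c : Λ → D) (e : ℕ), (∀ l, Spt dg {c l} (z l)) ∧
      (∀ l, ∃ (j : J) (h : Γ), c l = h • dg j) ∧
      z * m = N.map (Int.castRingHom (MonoidAlgebra k Γ)) * z ∧ IsNilpotent N ∧
      ChainNil c (N.map (Int.castRingHom (MonoidAlgebra k Γ))) e ∧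
      LinearMap.range z.vecMulLinear = Y

/-- ZG (300 lines, uses FG, FIN, RCI). Section 4 (G). -/
def ZgStatement : Prop :=
  ∀ (S : BdSys.{u}), IsInd S → ∀ (k Γ D : Type u) [Ring k] [Group Γ] [MulAction Γ D] (n : ℕ)
    (J : Type) [Fintype J] [DecidableEq J] (dg : J → D) (m : Matrix J J (LG k Γ)) (d : ℕ)
    (Y : Submodule (LG k Γ) (J → LG k Γ)),
    (∀ (c : D), ∀ x ∈ Y, res dg {c} x ∈ Y) → (∀ x ∈ Y, x ᵥ* m ∈ Y) →
    (∀ l : List D, l.length = d → ∀ x ∈ Y, itc dg m l x = 0) →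
    (∀ j, RegCoh (MonoidAlgebra k (MulAction.stabilizer Γ (dg j)))) → HasFPRes (LG k Γ) n Y →
    ∀ θ : Y →ₗ[LG k Γ] Y, (∀ x, (θ x : J → LG k Γ) = (x : J → LG k Γ) ᵥ* m) →
    Zc (gdet S k Γ) n Y θ

/-- FN2 (200 lines, uses everything above, FAM, COH). The vanishing for two trees. -/
def Fn2Statement : Prop :=
  ∀ (S : BdSys.{u}), IsInd S → ∀ (k Γ D V E : Type u) [Ring k] [Group Γ] [MulAction Γ D]
    [MulAction Γ V] [MulAction Γ E] (T : OTree Γ V E) (b : V), T.Subtrees b →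
    ∀ (J : Type) [Fintype J] [DecidableEq J] (dg : J → D) (μ : Matrix J J (LG k Γ)) (d : ℕ),
    ChainNil dg μ d →
    (∀ (j : J) (x : V), RegCoh (MonoidAlgebra k
        (MulAction.stabilizer Γ (dg j) ⊓ MulAction.stabilizer Γ x : Subgroup Γ)) ∧
      RegCoh (MonoidAlgebra (LaurentPolynomial k)
        (MulAction.stabilizer Γ (dg j) ⊓ MulAction.stabilizer Γ x : Subgroup Γ))) →
    (∀ (j : J) (e : E), RegCoh (MonoidAlgebra k
        (MulAction.stabilizer Γ (dg j) ⊓ MulAction.stabilizer Γ e : Subgroup Γ)) ∧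
      RegCoh (MonoidAlgebra (LaurentPolynomial k)
        (MulAction.stabilizer Γ (dg j) ⊓ MulAction.stabilizer Γ e : Subgroup Γ))) →
    (gdet S k Γ).val (1 - μ) = 0

/-! ## Part 4. Groups -/

/-- SUB (200 lines). Subgroups of regular coherent groups. -/
def SubStatement : Prop :=
  ∀ (G : Type u) [Group G], InRC G → ∀ H : Subgroup G, InRC H

/-- FREE (300 lines, section 5). Groups acting on a tree such that only `1` fixes a vertex. -/
def FreeStatement : Prop :=
  ∀ (Γ V : Type u) [Group Γ] [MulAction Γ V] (G : SimpleGraph V), TreeAct Γ G →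
    (∀ g : Γ, (∃ v : V, g • v = v) → g = 1) → InRC Γ

/-- The property `P` of subgroups of `Γ` is invariant under conjugation, and the determinants of
`1 - μ` vanish for chain nilpotent matrices with degrees with stabilizers with `P`. -/
structure FinOK (k Γ : Type u) [Ring k] [Group Γ] (P : Subgroup Γ → Prop) : Prop where
  conj : ∀ (g : Γ) (H : Subgroup Γ), P H → P (H.map (MulAut.conj g).toMonoidHom)
  fin : ∀ (S : BdSys.{u}), IsInd S → ∀ (D : Type u) [MulAction Γ D] (J : Type) [Fintype J]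
    [DecidableEq J] (dg : J → D) (μ : Matrix J J (LG k Γ)) (d : ℕ), ChainNil dg μ d →
    (∀ j, P (MulAction.stabilizer Γ (dg j))) → (gdet S k Γ).val (1 - μ) = 0

/-- THP (400 lines, mostly copies of THBI, THBO, REF, THA, FINA, THG with `P` for
`RegCoh k[S]`). -/
def ThpStatement : Prop :=
  ∀ (k Γ V : Type u) [Ring k] [Group Γ] [MulAction Γ V] (G : SimpleGraph V), TreeAct Γ G →
    (∀ v w, G.Adj v w →
      NilLaur k (MulAction.stabilizer Γ v ⊓ MulAction.stabilizer Γ w : Subgroup Γ)) →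
    ∀ P : Subgroup Γ → Prop, FinOK k Γ P →
    PathCond P (fun H : Subgroup Γ => NilPoly k H) G →
    ⨆ v : V, img k (MulAction.stabilizer Γ v) = ⊤

/-- The second tree: `S ∩ Γ_x` is regular coherent for all vertices `x`. -/
def P2 {Γ : Type u} [Group Γ] (V' : Type u) [MulAction Γ V'] (H : Subgroup Γ) : Prop :=
  ∀ x : V', InRC (H ⊓ MulAction.stabilizer Γ x : Subgroup Γ)

/-- FOK (150 lines, uses FN2, SUB, TRE, SUBT (TW)). -/
def FokStatement : Prop :=
  ∀ (k Γ V' : Type u) [Ring k] [Group Γ] [MulAction Γ V'] (G' : SimpleGraph V'), TreeAct Γ G' →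
    RegularRing k → FinOK k Γ (P2 (Γ := Γ) V')

/-- MAIN (200 lines). -/
def MainStatement : Prop :=
  (∀ (Γ V V' : Type u) [Group Γ] [MulAction Γ V] [MulAction Γ V'] (G : SimpleGraph V)
    (G' : SimpleGraph V'), TreeAct Γ G → TreeAct Γ G' →
    (∀ v w, G.Adj v w →
      InS (MulAction.stabilizer Γ v ⊓ MulAction.stabilizer Γ w : Subgroup Γ)) →
    PathCond (P2 (Γ := Γ) V') (fun H : Subgroup Γ => InS H) G →
    (∀ (R : Type u) [Ring R], RegularRing R → ∀ n : ℕ, ⨆ v : V,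
      ((KNegFun n).hom (mdr R (MulAction.stabilizer Γ v).subtype)).range = ⊤) ∧
    ((∀ v : V, InS (MulAction.stabilizer Γ v)) → InS Γ)) ∧
  (∀ (Γ V V' : Type u) [Group Γ] [MulAction Γ V] [MulAction Γ V'] (G : SimpleGraph V)
    (G' : SimpleGraph V'), TreeAct Γ G → TreeAct Γ G' →
    (∀ (v : V) (x : V'),
      InRC (MulAction.stabilizer Γ v ⊓ MulAction.stabilizer Γ x : Subgroup Γ)) → InS Γ) ∧
  (∀ (Γ V₁ V₂ V₃ : Type u) [Group Γ] [MulAction Γ V₁] [MulAction Γ V₂] [MulAction Γ V₃]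
    (G₁ : SimpleGraph V₁) (G₂ : SimpleGraph V₂) (G₃ : SimpleGraph V₃), TreeAct Γ G₁ →
    TreeAct Γ G₂ → TreeAct Γ G₃ →
    (∀ g : Γ, (∃ v : V₁, g • v = v) → (∃ v : V₂, g • v = v) → (∃ v : V₃, g • v = v) → g = 1) →
    InS Γ)

end Pool.Agent.NegK.TT
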