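import Pool.Agent.Lib.MP_28303a_al.TT.Main1
import Pool.Agent.Lib.MP_28303a_al.TT.H5.Fok
import Pool.Agent.Lib.MP_28303a_al.TT.H53.Thp
import Pool.Agent.Lib.MP_28303a_al.TT.H76.Split
import Pool.Agent.Lib.MP_28303a_al.TT.H91.SubS
import Pool.Agent.Lib.MP_28303a_al.TT47.Zg
import Pool.Agent.Lib.MP_28303a_al.TT98.Fn2

/-! # Two trees: the theorem -/

set_option autoImplicit false
set_option linter.unusedSectionVars false
set_option linter.unusedVariables false

namespace Pool.Agent.NegK.TT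

universe u v w

open Matrix MonoidAlgebra
open Pool.Agent.NegK.TW

theorem fn2 : Fn2Statement.{u} := H98.fn2 split H47.zg

theorem fok : FokStatement.{u} := H5.fok fn2

theorem two_trees {Γ V V' : Type u} [Group Γ]
    [MulAction Γ V] [MulAction Γ V'] {G : SimpleGraph V} {G' : SimpleGraph V'} (hG : TreeAct Γ G)
    (hG' : TreeAct Γ G')
    (hE : ∀ v w, G.Adj v w →
      H19.InL (MulAction.stabilizer Γ v ⊓ MulAction.stabilizer Γ w : Subgroup Γ))
    (hN : CondP Γ (P2 (Γ := Γ) V') G ∨ LongP Γ (P2 (Γ := Γ) V') G) :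
    (∀ (R : Type u) [Ring R], RegularRing R → ∀ n : ℕ, ⨆ v : V,
      ((KNegFun n).hom (mdr R (MulAction.stabilizer Γ v).subtype)).range = ⊤) ∧
    ((∀ v : V, H19.InL (MulAction.stabilizer Γ v)) → H19.InL Γ) :=
  two H53.thp fok hG hG' hE hN

end Pool.Agent.NegK.TT
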